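import Pool.Agent.Lib.MP_a55e6f_al.Uni.Interfaces
import Pool.Agent.Lib.MP_a55e6f_al.Uni.Basic

/-!
# MP_a55e6f_al, module ST: the structure theorem
-/

set_option autoImplicit false

universe u

attribute [local instance 100] LieRing.ofAssociativeRing

namespace Pool.Agent.A55u.H23

open Pool.Agent.A55u

/-- spans in a Lie subalgebra -/
theorem lieSpan_eq_top_iff {k A : Type u} [Field k] [LieRing A] [LieAlgebra k A]
    (C : LieSubalgebra k A) (S : Set C) :
    LieSubalgebra.lieSpan k C S = ⊤ ↔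
      LieSubalgebra.lieSpan k A ((fun c : C => (c : A)) '' S) = C := by
  have h : (LieSubalgebra.lieSpan k C S).map C.incl
      = LieSubalgebra.lieSpan k A ((fun c : C => (c : A)) '' S) :=
    LieSubalgebra.map_lieSpan C.incl
  constructor
  · intro h1
    rw [← h, h1]
    ext x
    constructor
    · rintro ⟨y, -, rfl⟩; exact y.2
    · intro hx; exact ⟨⟨x, hx⟩, trivial, rfl⟩
  · intro h1
    rw [eq_top_iff]
    intro x _
    have hx : (x : A) ∈ (LieSubalgebra.lieSpan k C S).map C.incl := by rw [h, h1]; exact x.2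
    obtain ⟨y, hy, hyx⟩ := hx
    have : y = x := Subtype.ext hyx
    rwa [← this]

/-- existence of a minimizing tuple -/
theorem exists_min {α : Type u} (P : α → Prop) (f : α → ℕ) (h : ∃ a, P a) :
    ∃ a, P a ∧ ∀ b, P b → f a ≤ f b := by
  classical
  have h1 : ∃ n, ∃ a, P a ∧ f a = n := by
    obtain ⟨a, ha⟩ := h
    exact ⟨_, a, ha, rfl⟩
  obtain ⟨a, ha, hfa⟩ := Nat.find_spec h1
  refine ⟨a, ha, fun b hb => ?_⟩
  rw [hfa]
  exact Nat.find_min' h1 ⟨b, hb, rfl⟩

/-- splitting `Fin m` along a predicate -/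
theorem exists_split {m : ℕ} (p : Fin m → Prop) :
    ∃ (m0 m1 : ℕ) (_ : m0 + m1 = m) (e : Fin m0 ⊕ Fin m1 ≃ Fin m),
      (∀ i, p (e (Sum.inl i))) ∧ ∀ i, ¬ p (e (Sum.inr i)) := by
  classical
  let e0 : Fin (Fintype.card {i // p i}) ≃ {i // p i} := (Fintype.equivFin _).symm
  let e1 : Fin (Fintype.card {i // ¬ p i}) ≃ {i // ¬ p i} := (Fintype.equivFin _).symm
  let e : Fin (Fintype.card {i // p i}) ⊕ Fin (Fintype.card {i // ¬ p i}) ≃ Fin m :=
    (Equiv.sumCongr e0 e1).trans (Equiv.sumCompl p)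
  refine ⟨_, _, ?_, e, fun i => ?_, fun i => ?_⟩
  · have := Fintype.card_congr e
    simpa using this
  · show p ((e0 i : {i // p i}) : Fin m)
    exact (e0 i).2
  · show ¬ p ((e1 i : {i // ¬ p i}) : Fin m)
    exact (e1 i).2

section psi
variable {k Y : Type u} [Field k]

/-- Lemma A in the form needed here. -/
theorem exists_psi [CharZero k] (hLA : LAStatement.{u}) (hDB : DoubleStatement.{u}) (hTH : ThetaStatement.{u})
    (L : LieSubalgebra k (FA k Y)) (hL : EnvPair L) (haug : ∀ l ∈ L, l.coeff 1 = 0)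
    (Y' : Set Y) (T : Set (FA k Y)) (hTY : T ⊆ subA k Y') (m : ℕ) (c : Fin m → FA k Y)
    (C : LieSubalgebra k (FA k Y)) (hC : C = LieSubalgebra.lieSpan k (FA k Y) (T ∪ Set.range c))
    (hCL : C ≤ L) (hex : ∃ a ∈ C, a ∉ subA k Y') :
    ∃ ψ : C →ₗ⁅k⁆ BA k Y, (∀ x, ψ x ∈ bigL L) ∧ (∀ x, comp zd 0 (ψ x) = jA k Y x) ∧
      (∀ x : C, (x : FA k Y) ∈ subA k Y' → ψ x = jA k Y x) ∧ ∃ x, ψ x ≠ jA k Y x := by
  obtain ⟨hG, hjG⟩ := hDB k Y L hL haug
  obtain ⟨-, hjhom, hthc, hthiff⟩ := hTH k Y Y'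
  let Θ : C →ₗ⁅k⁆ BA k Y := (thA k Y' : FA k Y →ₗ⁅k⁆ BA k Y).comp C.incl
  let j : C →ₗ⁅k⁆ BA k Y := (jA k Y : FA k Y →ₗ⁅k⁆ BA k Y).comp C.incl
  have hΘ : ∀ x : C, Θ x = thA k Y' x := fun x => rfl
  have hj : ∀ x : C, j x = jA k Y x := fun x => rfl
  have hspan : LieSubalgebra.lieSpan k C
      ({x : C | (x : FA k Y) ∈ T} ∪ {x : C | (x : FA k Y) ∈ Set.range c}) = ⊤ := by
    rw [lieSpan_eq_top_iff]
    conv_rhs => rw [hC]
    congr 1
    ext a
    constructor
    · rintro ⟨x, hx | hx, rfl⟩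
      · exact Or.inl hx
      · exact Or.inr hx
    · intro ha
      have haC : a ∈ C := by rw [hC]; exact LieSubalgebra.subset_lieSpan ha
      rcases ha with ha | ha
      · exact ⟨⟨a, haC⟩, Or.inl ha, rfl⟩
      · exact ⟨⟨a, haC⟩, Or.inr ha, rfl⟩
  have hfin : {x : C | (x : FA k Y) ∈ Set.range c}.Finite :=
    Set.Finite.preimage (Subtype.val_injective.injOn) (Set.finite_range c)
  obtain ⟨ψ, h1, h2, h3, h4⟩ := hLA k (FreeMonoid (Y ⊕ Y)) zd yd isAdd_zd isAdd_yd
    eq_one_of_zd_yd (bigL L) hG.env hG.graded hG.aug C Θ j _ _ hfin hspan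
    (fun x => hthc x) (fun x => hjG x (hCL x.2))
    (fun t ht => (hthiff _).2 (hTY ht)) (by
      obtain ⟨a, haC, ha⟩ := hex
      intro h
      exact ha ((hthiff a).1 (LieHom.congr_fun h ⟨a, haC⟩)))
  refine ⟨ψ, h1, h2, fun x hx => h3 x ((hthiff _).2 hx), ?_⟩
  by_contra hne
  push Not at hne
  exact h4 (LieHom.ext hne)

end psi

/-- `range` of a tuple assembled from two tuples. -/
theorem range_elim {α : Type u} {m0 m1 : ℕ} (f : Fin m0 → α) (g : Fin m1 → α) :
    Set.range (fun i : Fin (m0 + m1) => Sum.elim f g (finSumFinEquiv.symm i))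
      = Set.range f ∪ Set.range g := by
  rw [← Set.Sum.elim_range]
  exact (finSumFinEquiv.symm.surjective).range_comp (Sum.elim f g)

theorem sum_elim' {α : Type u} {m0 m1 : ℕ} (f : Fin m0 → α) (g : Fin m1 → α) (F : α → ℕ) :
    ∑ i : Fin (m0 + m1), F (Sum.elim f g (finSumFinEquiv.symm i))
      = ∑ i, F (f i) + ∑ i, F (g i) := by
  rw [Equiv.sum_comp finSumFinEquiv.symm (fun s => F (Sum.elim f g s)), Fintype.sum_sum_type]
  rfl

/-- The core of the structure theorem. -/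
theorem core {k Y : Type u} [Field k] (hIN : InnerStatement.{u}) (hLF : LFStatement.{u})
    (hP0 : P0Statement.{u}) (hP2 : P2Statement.{u})
    (L : LieSubalgebra k (FA k Y)) (hL : EnvPair L) (G : LieSubalgebra k (BA k Y))
    (hG : GoodG G) (hjinj : Function.Injective (jA k Y)) (hjhom : ∀ a, Hom zd 0 (jA k Y a))
    (Y' : Set Y) (T : Set (FA k Y)) (hTY : T ⊆ subA k Y') (m : ℕ)
    (C : LieSubalgebra k (FA k Y)) (hCL : C ≤ L) (hTC : T ⊆ C)
    (ψ : C →ₗ⁅k⁆ BA k Y) (hψG : ∀ x, ψ x ∈ G) (hψ0 : ∀ x, comp zd 0 (ψ x) = jA k Y x)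
    (hψY : ∀ x : C, (x : FA k Y) ∈ subA k Y' → ψ x = jA k Y x) (hψne : ∃ x, ψ x ≠ jA k Y x)
    (hex : ∃ c : Fin m → C, LieSubalgebra.lieSpan k (FA k Y)
      (T ∪ Set.range (fun i => (c i : FA k Y))) = C)
    (hmin : ∀ m' < m, ∀ c' : Fin m' → FA k Y, (∀ i, c' i ∈ L) →
      LieSubalgebra.lieSpan k (FA k Y) (T ∪ Set.range c') ≠ C)
    (hIH : ∀ m' < m, ∀ c' : Fin m' → FA k Y, (∀ i, c' i ∈ L) →
      ∃ m'' ≤ m', ∃ d : Fin m'' → FA k Y, (∀ i, d i ∈ L) ∧
        LieSubalgebra.lieSpan k (FA k Y) (T ∪ Set.range d)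
          = LieSubalgebra.lieSpan k (FA k Y) (T ∪ Set.range c') ∧
        FreeFam k (Sum.elim (Subtype.val : T → FA k Y) d)) :
    ∃ d : Fin m → FA k Y, (∀ i, d i ∈ L) ∧
      LieSubalgebra.lieSpan k (FA k Y) (T ∪ Set.range d) = C ∧
      FreeFam k (Sum.elim (Subtype.val : T → FA k Y) d) ∧
      ∃ m' < m, ∃ e : Fin m' → FA k Y, (∀ i, e i ∈ L) ∧
        LieSubalgebra.lieSpan k (FA k Y) (T ∪ Set.range e) ≤ C ∧
        ∀ a ∈ C, a ∈ subA k Y' → a ∈ LieSubalgebra.lieSpan k (FA k Y) (T ∪ Set.range e) := by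
  obtain ⟨c, hc, hcmin⟩ := exists_min _ (fun c : Fin m → C => ∑ i, degOf zd (ψ (c i))) hex
  obtain ⟨m0, m1, hm, e, he0, he1⟩ := exists_split (fun i => degOf zd (ψ (c i)) = 0)
  subst hm
  -- `ψ` agrees with `j` on elements of degree 0
  have hdeg0 : ∀ x : C, degOf zd (ψ x) = 0 → ψ x = jA k Y x := by
    intro x hx
    rw [← hψ0 x]
    exact ((degOf_eq_zero_iff.1 hx).comp_eq).symm
  -- the equalizer of `ψ` and `j` as a Lie subalgebra of `A`
  let Eq0 : LieSubalgebra k (FA k Y) :=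
    { carrier := {a | ∃ h : a ∈ C, ψ ⟨a, h⟩ = jA k Y a}
      add_mem' := by
        rintro a b ⟨ha, ha'⟩ ⟨hb, hb'⟩
        refine ⟨C.add_mem ha hb, ?_⟩
        have : (⟨a + b, C.add_mem ha hb⟩ : C) = ⟨a, ha⟩ + ⟨b, hb⟩ := rfl
        rw [this, map_add, ha', hb', map_add]
      zero_mem' := ⟨C.zero_mem, by
        have : (⟨0, C.zero_mem⟩ : C) = 0 := rfl
        rw [this, map_zero, map_zero]⟩
      smul_mem' := by
        rintro r a ⟨ha, ha'⟩
        refine ⟨C.smul_mem r ha, ?_⟩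
        have : (⟨r • a, C.smul_mem r ha⟩ : C) = r • ⟨a, ha⟩ := rfl
        rw [this, map_smul, ha', map_smul]
      lie_mem' := by
        rintro a b ⟨ha, ha'⟩ ⟨hb, hb'⟩
        refine ⟨C.lie_mem ha hb, ?_⟩
        have : (⟨⁅a, b⁆, C.lie_mem ha hb⟩ : C) = ⁅(⟨a, ha⟩ : C), (⟨b, hb⟩ : C)⁆ := rfl
        rw [this, LieHom.map_lie, ha', hb', LieRing.of_associative_ring_bracket,
          LieRing.of_associative_ring_bracket, map_sub, map_mul, map_mul] }
  have hEqT : T ⊆ Eq0 := fun t ht => ⟨hTC ht, hψY ⟨t, hTC ht⟩ (hTY ht)⟩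
  have hEqc : ∀ i : Fin m0, ((c (e (Sum.inl i)) : C) : FA k Y) ∈ Eq0 := fun i =>
    ⟨(c (e (Sum.inl i))).2, hdeg0 _ (he0 i)⟩
  -- m0 < m0 + m1
  have hm1 : m0 < m0 + m1 := by
    by_contra hlt
    have hm1 : m1 = 0 := by omega
    subst hm1
    obtain ⟨x, hx⟩ := hψne
    apply hx
    have hle : LieSubalgebra.lieSpan k (FA k Y) (T ∪ Set.range (fun i => (c i : FA k Y)))
        ≤ Eq0 := by
      rw [LieSubalgebra.lieSpan_le]
      rintro a (ha | ⟨i, rfl⟩)
      · exact hEqT ha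
      · obtain ⟨s, rfl⟩ := e.surjective i
        rcases s with s | s
        · exact hEqc s
        · exact s.elim0
    obtain ⟨_, h⟩ := hle (hc.ge x.2)
    exact h
  -- the subalgebra `D0`
  obtain ⟨m'', hm'', d, hdL, hdspan, hdfree⟩ := hIH m0 hm1
    (fun i => (c (e (Sum.inl i)) : FA k Y)) (fun i => hCL (c (e (Sum.inl i))).2)
  have hD0C : LieSubalgebra.lieSpan k (FA k Y)
      (T ∪ Set.range (fun i : Fin m0 => (c (e (Sum.inl i)) : FA k Y))) ≤ C := by
    rw [LieSubalgebra.lieSpan_le]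
    rintro a (ha | ⟨i, rfl⟩)
    · exact hTC ha
    · exact (c (e (Sum.inl i))).2
  have hD0E : LieSubalgebra.lieSpan k (FA k Y)
      (T ∪ Set.range (fun i : Fin m0 => (c (e (Sum.inl i)) : FA k Y))) ≤ Eq0 := by
    rw [LieSubalgebra.lieSpan_le]
    rintro a (ha | ⟨i, rfl⟩)
    · exact hEqT ha
    · exact hEqc i
  rw [← hdspan] at hD0C hD0E
  -- `d` and the remaining `c` generate `C`
  have hgen : LieSubalgebra.lieSpan k (FA k Y) (T ∪ (Set.range d ∪
      Set.range (fun i : Fin m1 => (c (e (Sum.inr i)) : FA k Y)))) = C := by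
    apply le_antisymm
    · rw [LieSubalgebra.lieSpan_le]
      rintro a (ha | ha | ⟨i, rfl⟩)
      · exact hTC ha
      · exact hD0C (LieSubalgebra.subset_lieSpan (Or.inr ha))
      · exact (c (e (Sum.inr i))).2
    · refine hc.ge.trans ?_
      rw [LieSubalgebra.lieSpan_le]
      rintro a (ha | ⟨i, rfl⟩)
      · exact LieSubalgebra.subset_lieSpan (Or.inl ha)
      · obtain ⟨s, rfl⟩ := e.surjective i
        rcases s with s | s
        · have h1 : ((c (e (Sum.inl s)) : C) : FA k Y) ∈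
              LieSubalgebra.lieSpan k (FA k Y) (T ∪ Set.range d) := by
            rw [hdspan]
            exact LieSubalgebra.subset_lieSpan (Or.inr ⟨s, rfl⟩)
          refine LieSubalgebra.lieSpan_mono ?_ h1
          rintro b (hb | hb)
          · exact Or.inl hb
          · exact Or.inr (Or.inl hb)
        · exact LieSubalgebra.subset_lieSpan (Or.inr (Or.inr ⟨s, rfl⟩))
  have hm0 : m'' = m0 := by
    by_contra hne
    have hlt : m'' + m1 < m0 + m1 := by omega
    apply hmin _ hlt (fun i => Sum.elim d (fun i : Fin m1 => (c (e (Sum.inr i)) : FA k Y))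
      (finSumFinEquiv.symm i))
    · intro i
      rcases finSumFinEquiv.symm i with s | s
      · exact hdL s
      · exact hCL (c (e (Sum.inr s))).2
    · rw [range_elim, hgen]
  subst hm0
  -- the base family `t`
  have hdC : ∀ i, d i ∈ C := fun i => hD0C (LieSubalgebra.subset_lieSpan (Or.inr ⟨i, rfl⟩))
  let dC : Fin m'' → C := fun i => ⟨d i, hdC i⟩
  let t : T ⊕ Fin m'' → C := Sum.elim (fun a => ⟨a.1, hTC a.2⟩) dC
  have ht : ∀ j, ((t j : C) : FA k Y) = Sum.elim (Subtype.val : T → FA k Y) d j := by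
    rintro (j | j) <;> rfl
  have htD : ∀ j, ((t j : C) : FA k Y) ∈ LieSubalgebra.lieSpan k (FA k Y) (T ∪ Set.range d) := by
    rintro (j | j)
    · exact LieSubalgebra.subset_lieSpan (Or.inl j.2)
    · exact LieSubalgebra.subset_lieSpan (Or.inr ⟨j, rfl⟩)
  have htψ : ∀ j, ψ (t j) = jA k Y (t j) := by
    intro j
    obtain ⟨_, h⟩ := hD0E (htD j)
    exact h
  have htfree : FreeFam k (fun j => ψ (t j)) := by
    have h1 : (fun j => ψ (t j)) = fun j => jA k Y (Sum.elim (Subtype.val : T → FA k Y) d j) := by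
      ext1 j
      rw [htψ, ht]
    rw [h1]
    exact hdfree.map hjinj
  -- the remaining generators
  let c1 : Fin m1 → C := fun i => c (e (Sum.inr i))
  have htrange : (fun x : C => (x : FA k Y)) '' (Set.range t) = T ∪ Set.range d := by
    ext a
    constructor
    · rintro ⟨_, ⟨j | j, rfl⟩, rfl⟩
      · exact Or.inl j.2
      · exact Or.inr ⟨j, rfl⟩
    · rintro (ha | ⟨i, rfl⟩)
      · exact ⟨_, ⟨Sum.inl ⟨a, ha⟩, rfl⟩, rfl⟩
      · exact ⟨_, ⟨Sum.inr i, rfl⟩, rfl⟩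
  have hspan_iff : ∀ c' : Fin m1 → C,
      LieSubalgebra.lieSpan k C (Set.range t ∪ Set.range c') = ⊤ ↔
      LieSubalgebra.lieSpan k (FA k Y) (T ∪ (Set.range d ∪
        Set.range (fun i => (c' i : FA k Y)))) = C := by
    intro c'
    rw [lieSpan_eq_top_iff, Set.image_union, htrange, ← Set.range_comp, Set.union_assoc]
    rfl
  have hspan1 : LieSubalgebra.lieSpan k C (Set.range t ∪ Set.range c1) = ⊤ :=
    (hspan_iff c1).2 hgen
  have hdeg1 : ∀ i, 1 ≤ degOf zd (ψ (c1 i)) := fun i => Nat.one_le_iff_ne_zero.2 (he1 i)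
  have hdegd : ∀ i, degOf zd (ψ (dC i)) = 0 := by
    intro i
    rw [degOf_eq_zero_iff]
    have := htψ (Sum.inr i)
    show Hom zd 0 (ψ (t (Sum.inr i)))
    rw [this]
    exact hjhom _
  have hMIN : ∀ c' : Fin m1 → C, LieSubalgebra.lieSpan k C (Set.range t ∪ Set.range c') = ⊤ →
      ∑ i, degOf zd (ψ (c1 i)) ≤ ∑ i, degOf zd (ψ (c' i)) := by
    intro c' hc'
    rw [hspan_iff] at hc'
    have h1 := hcmin (fun i => Sum.elim dC c' (finSumFinEquiv.symm i)) (by
      have h2 : (fun i : Fin (m'' + m1) => ((Sum.elim dC c' (finSumFinEquiv.symm i) : C) : FA k Y))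
          = fun i => Sum.elim d (fun i => (c' i : FA k Y)) (finSumFinEquiv.symm i) := by
        ext1 i
        rcases finSumFinEquiv.symm i with s | s <;> rfl
      rw [h2, range_elim]
      exact hc')
    have h2 := sum_elim' dC c' (fun x => degOf zd (ψ x))
    rw [h2] at h1
    have h3 : ∑ i, degOf zd (ψ (c i)) = ∑ i, degOf zd (ψ (c1 i)) := by
      rw [← Equiv.sum_comp e (fun i => degOf zd (ψ (c i))), Fintype.sum_sum_type]
      simp only [he0, Finset.sum_const_zero, zero_add]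
      rfl
    rw [h3] at h1
    simpa [hdegd] using h1
  have hlead := hIN k Y G hG C ψ hψG (T ⊕ Fin m'') t (fun j => by rw [htψ]; exact hjhom _) htfree
    m1 c1 hdeg1 hspan1 hMIN
  -- leading forms
  let x : (T ⊕ Fin m'') ⊕ Fin m1 → C := Sum.elim t c1
  let v : (T ⊕ Fin m'') ⊕ Fin m1 → ℕ := Sum.elim (fun _ => 0) (fun i => degOf zd (ψ (c1 i)))
  have hxlead : (fun i => comp zd (v i) (ψ (x i))) = Sum.elim (fun j => ψ (t j))
      (fun i => comp zd (degOf zd (ψ (c1 i))) (ψ (c1 i))) := by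
    ext1 i
    rcases i with i | i
    · show comp zd 0 (ψ (t i)) = ψ (t i)
      rw [htψ]
      exact (hjhom _).comp_eq
    · rfl
  obtain ⟨hxfree, hker⟩ := hLF k Y _ (fun i => ψ (x i)) v (by
      rintro (i | i) w hw
      · have h1 : (ψ (t i)).coeff w ≠ 0 := hw
        rw [htψ] at h1
        exact (hjhom _ w h1).le
      · exact le_degOf hw) (fun i => hG.aug _ (hψG _)) (by rw [hxlead]; exact hlead)
  obtain ⟨F, hF⟩ := hP0 k (FreeMonoid Y) L hL C hCL (BA k Y) ψ
  -- `F ∘ ev x = ev (ψ ∘ x)`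
  let xA : (T ⊕ Fin m'') ⊕ Fin m1 → Algebra.adjoin k (C : Set (FA k Y)) :=
    fun i => ⟨(x i : FA k Y), Algebra.subset_adjoin (x i).2⟩
  have hFx : ∀ p : FA k ((T ⊕ Fin m'') ⊕ Fin m1), F (ev xA p) = ev (fun i => ψ (x i)) p := by
    intro p
    rw [map_ev]
    congr 2
    ext1 i
    exact hF (x i)
  have hvx : ∀ p : FA k ((T ⊕ Fin m'') ⊕ Fin m1),
      ((ev xA p : Algebra.adjoin k (C : Set (FA k Y))) : FA k Y)
        = ev (fun i => (x i : FA k Y)) p := fun p =>
    map_ev (Algebra.adjoin k (C : Set (FA k Y))).val xA p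
  have hxAfree : FreeFam k (fun i => (x i : FA k Y)) := by
    intro p q hpq
    apply hxfree
    show ev (fun i => ψ (x i)) p = ev (fun i => ψ (x i)) q
    rw [← hFx, ← hFx]
    congr 1
    apply Subtype.ext
    rw [hvx, hvx]
    exact hpq
  refine ⟨fun i => Sum.elim d (fun i => (c1 i : FA k Y)) (finSumFinEquiv.symm i), ?_, ?_, ?_,
    m'', hm1, d, hdL, hD0C, ?_⟩
  · intro i
    show Sum.elim d (fun i => (c1 i : FA k Y)) (finSumFinEquiv.symm i) ∈ L
    rcases finSumFinEquiv.symm i with s | s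
    · exact hdL s
    · exact hCL (c1 s).2
  · rw [range_elim]
    exact hgen
  · let f : T ⊕ Fin (m'' + m1) → (T ⊕ Fin m'') ⊕ Fin m1 :=
      fun s => (Equiv.sumAssoc _ _ _).symm (Sum.map id finSumFinEquiv.symm s)
    have hf : Function.Injective f :=
      (Equiv.injective _).comp (Sum.map_injective.2
        ⟨Function.injective_id, finSumFinEquiv.symm.injective⟩)
    have h1 := hxAfree.comp_injective hf
    have h2 : (fun i => ((x (f i) : C) : FA k Y)) = Sum.elim (Subtype.val : T → FA k Y)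
        (fun i => Sum.elim d (fun i => (c1 i : FA k Y)) (finSumFinEquiv.symm i)) := by
      ext1 s
      rcases s with s | s
      · rfl
      · show ((x ((Equiv.sumAssoc _ _ _).symm (Sum.inr (finSumFinEquiv.symm s))) : C) : FA k Y)
          = Sum.elim d (fun i => (c1 i : FA k Y)) (finSumFinEquiv.symm s)
        rcases finSumFinEquiv.symm s with r | r <;> rfl
    rw [h2] at h1
    exact h1
  · intro a haC haY
    have hψa : ψ ⟨a, haC⟩ = jA k Y a := hψY ⟨a, haC⟩ haY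
    -- `a = ev x p`
    have hCadj : (C : Set (FA k Y)) ⊆ Algebra.adjoin k (Set.range (fun i => (x i : FA k Y))) := by
      have h1 : C ≤ lieSubalgebraOfSubalgebra k (FA k Y)
          (Algebra.adjoin k (Set.range (fun i => (x i : FA k Y)))) := by
        refine hgen.ge.trans ?_
        rw [LieSubalgebra.lieSpan_le]
        rintro b (hb | ⟨i, rfl⟩ | ⟨i, rfl⟩)
        · exact Algebra.subset_adjoin ⟨Sum.inl (Sum.inl ⟨b, hb⟩), rfl⟩
        · exact Algebra.subset_adjoin ⟨Sum.inl (Sum.inr i), rfl⟩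
        · exact Algebra.subset_adjoin ⟨Sum.inr i, rfl⟩
      exact h1
    obtain ⟨p, hp⟩ := exists_ev_of_mem_adjoin _ (hCadj haC)
    have h1 : ev xA p = (⟨a, Algebra.subset_adjoin haC⟩ : Algebra.adjoin k (C : Set (FA k Y))) := by
      apply Subtype.ext
      rw [hvx, hp]
    have h2 : ev (fun i => ψ (x i)) p = jA k Y a := by
      rw [← hFx, h1]
      exact (hF ⟨a, haC⟩).trans hψa
    have h3 := hker p (by rw [h2]; exact hjhom a)
    have h4 : a ∈ Algebra.adjoin k
        (LieSubalgebra.lieSpan k (FA k Y) (T ∪ Set.range d) : Set (FA k Y)) := by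
      have h5 : subA k {i | v i = 0} ≤ (Algebra.adjoin k
          (LieSubalgebra.lieSpan k (FA k Y) (T ∪ Set.range d) : Set (FA k Y))).comap
            (ev (fun i => (x i : FA k Y))) := by
        apply Algebra.adjoin_le
        rintro _ ⟨i, hi, rfl⟩
        show ev (fun i => (x i : FA k Y)) (letter k i) ∈ Algebra.adjoin k
          (LieSubalgebra.lieSpan k (FA k Y) (T ∪ Set.range d) : Set (FA k Y))
        rw [ev_letter]
        rcases i with i | i
        · exact Algebra.subset_adjoin (htD i)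
        · exact absurd hi (Nat.one_le_iff_ne_zero.1 (hdeg1 i))
      have h6 := h5 h3
      rw [← hp]
      exact h6
    exact hP2 k (FreeMonoid Y) L hL _ (hD0C.trans hCL) a (hCL haC) h4

/-- Module ST. -/
theorem struct_ (hLA : LAStatement.{u}) (hIN : InnerStatement.{u}) (hLF : LFStatement.{u})
    (hP0 : P0Statement.{u}) (hP2 : P2Statement.{u}) (hDB : DoubleStatement.{u}) (hTH : ThetaStatement.{u}) :
    StructStatement.{u} := by
  intro k Y _ _ L hL haug Y' T hTL hTY m c hcL hmin hIH hex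
  have hCL : LieSubalgebra.lieSpan k (FA k Y) (T ∪ Set.range c) ≤ L := by
    rw [LieSubalgebra.lieSpan_le]
    rintro a (ha | ⟨i, rfl⟩)
    · exact hTL ha
    · exact hcL i
  obtain ⟨ψ, h1, h2, h3, h4⟩ := exists_psi hLA hDB hTH L hL haug Y' T hTY m c _ rfl hCL hex
  obtain ⟨hG, -⟩ := hDB k Y L hL haug
  obtain ⟨hjinj, hjhom, -, -⟩ := hTH k Y Y'
  refine core hIN hLF hP0 hP2 L hL (bigL L) hG hjinj hjhom Y' T hTY m _ hCL ?_ ψ h1 h2 h3 h4 ?_
    hmin hIH
  · intro t ht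
    exact LieSubalgebra.subset_lieSpan (Or.inl ht)
  · exact ⟨fun i => ⟨c i, LieSubalgebra.subset_lieSpan (Or.inr ⟨i, rfl⟩)⟩, rfl⟩

end Pool.Agent.A55u.H23
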